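import Pool.Agent.W770.PC.CutStms

/-!
Project PC, piece PC-polyS: polynomial chirps on spherical polygons.
-/

set_option autoImplicit false

open MeasureTheory Set Filter Topology
open scoped ENNReal NNReal RealInnerProductSpace
open Pool.Agent.W770.PC
open Pool.Agent.H789R2.FR (E sg)

namespace Pool.Agent.W639.PC

theorem norm_ee (x : ℝ) : ‖ee x‖ = 1 := by
  unfold ee
  exact Complex.norm_exp_ofReal_mul_I x

theorem continuous_pe (P : MvPolynomial (Fin 3) ℝ) : Continuous (pe P) := by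
  have h1 : Continuous (fun x : E 3 => (fun i : Fin 3 => x i)) := by fun_prop
  have h2 : Continuous (fun x : E 3 => MvPolynomial.eval (fun i => x i) P) :=
    (MvPolynomial.continuous_eval P).comp h1
  unfold pe ee
  fun_prop

theorem iInter_succ (k : ℕ) (H : Fin (k + 1) → Set (E 3)) :
    ⋂ j, H j = H 0 ∩ ⋂ j : Fin k, H j.succ := by
  ext x
  simp only [mem_iInter, mem_inter_iff, Fin.forall_fin_succ]

theorem polyS_thm (h1 : S_sph) (h2 : S_cutS) : S_polyS := by
  intro D k p hp
  induction k with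
  | zero =>
    obtain ⟨K, hK, h⟩ := h1 D p hp
    refine ⟨K, hK, fun P hP ω c _ => ?_⟩
    have e : (⋂ j : Fin 0, {x : E 3 | c j ≤ ⟪ω j, x⟫}) = univ := iInter_of_empty _
    rw [e, indicator_univ]
    exact h P hP
  | succ k ih =>
    obtain ⟨K, hK, h⟩ := ih
    obtain ⟨C, hC, hcut⟩ := h2 p (by linarith)
    refine ⟨C * K, by positivity, fun P hP ω c hω => ?_⟩
    have e : (⋂ j, {x : E 3 | c j ≤ ⟪ω j, x⟫}) =
        {x : E 3 | c 0 ≤ ⟪ω 0, x⟫} ∩ ⋂ j : Fin k, {x : E 3 | c j.succ ≤ ⟪ω j.succ, x⟫} :=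
      iInter_succ k (fun j => {x : E 3 | c j ≤ ⟪ω j, x⟫})
    rw [e, ← indicator_indicator]
    have hmeas : MeasurableSet (⋂ j : Fin k, {x : E 3 | c j.succ ≤ ⟪ω j.succ, x⟫}) := by
      refine MeasurableSet.iInter fun j => ?_
      have hc : Continuous (fun x : E 3 => ⟪ω j.succ, x⟫) := by fun_prop
      exact (isClosed_le continuous_const hc).measurableSet
    have hm : Measurable ((⋂ j : Fin k, {x : E 3 | c j.succ ≤ ⟪ω j.succ, x⟫}).indicator (pe P)) :=
      (continuous_pe P).measurable.indicator hmeas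
    have hb : ∀ x, ‖(⋂ j : Fin k, {x : E 3 | c j.succ ≤ ⟪ω j.succ, x⟫}).indicator (pe P) x‖
        ≤ 1 := by
      intro x
      refine (norm_indicator_le_norm_self _ _).trans ?_
      exact (norm_ee _).le
    refine (hcut _ 1 hm hb (ω 0) (c 0) (hω 0)).trans ?_
    rw [ENNReal.ofReal_mul hC]
    gcongr
    exact h P hP (fun j => ω j.succ) (fun j => c j.succ) (fun j => hω j.succ)

end Pool.Agent.W639.PC
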